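import Pool.Agent.Lib.MP_1a91b9_ntH.R.Qd

/-!
# MP_1a91b9_nt (TwistDensity), phase 2: the objects for a class `c` modulo 4

`c : F4`; `c = 0` is phase 1. `u = 1 + 2 x`, `red x = c`, is the class modulo 4 of `dlc c S`.
-/

set_option autoImplicit false

namespace Pool.Agent.Lib.MP_1a91b9_ntH2

open NumberField Finset Pool.Agent.Lib.MP_1a91b9_ntT Pool.Agent.Lib.MP_1a91b9_ntH

noncomputable section

/-- The system with the classes changed by the character of `c`. -/
def tw {ι : Type} (c : F4) (D : Dat ι) : Dat ι where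
  s := D.s
  a q := D.a q + F4.of (F4.tr (c * D.a q))

/-- The twisting element of a squarefree integer for the class `c`: a generator of `(DD S)` or of
`(s3 * DD S)` with class `c` modulo `4`. -/
def dlc (c : F4) (S : Finset Pq) : 𝓞 K :=
  (if (qd.A S + c).b = 0 then 1 else s3) * (if (qd.A S + c).a = 0 then 1 else -1) * DD S

/-- The quadratic character of `dlc c S`, on the elements congruent to `1` modulo `2`. -/
def chic (c : F4) (S : Finset Pq) (x : 𝓞 K) : ℤ := chi S x * sgz (F4.tr (c * red (half x)))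

theorem sgz_one : sgz 1 = -1 := rfl

theorem sgz_cases (x : ZMod 2) : sgz x = 1 ∨ sgz x = -1 := by
  revert x
  decide

theorem sgz_eq (x : ZMod 2) : ∃ n : ℤ, sgz x = 1 - 2 * n ∧ (n : ZMod 2) = x := by
  revert x
  intro x
  fin_cases x
  · exact ⟨0, by decide, by decide⟩
  · exact ⟨1, by decide, by decide⟩

theorem tr_zero_mul (x : F4) : F4.tr (0 * x) = 0 := by
  revert x
  decide

theorem tw_zero {ι : Type} (D : Dat ι) : tw 0 D = D := by
  obtain ⟨s, a⟩ := D
  unfold tw
  congr 1
  funext q
  have h : ∀ x : F4, x + F4.of (F4.tr (0 * x)) = x := by decide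
  exact h _

theorem dlc_zero (S : Finset Pq) : dlc 0 S = dl S := by
  unfold dlc dl
  rw [add_zero]

theorem chic_zero (S : Finset Pq) (x : 𝓞 K) : chic 0 S x = chi S x := by
  unfold chic
  rw [tr_zero_mul, sgz_zero, mul_one]

theorem tw_s {ι : Type} (c : F4) (D : Dat ι) (p q : ι) : (tw c D).s p q = D.s p q := rfl

theorem tw_a {ι : Type} (c : F4) (D : Dat ι) (q : ι) : (tw c D).a q = D.a q + F4.of (F4.tr (c * D.a q)) := rfl

section

variable {ι : Type} [DecidableEq ι]

theorem cj_add_of (x : F4) (t : ZMod 2) : F4.cj (x + F4.of t) = F4.cj x + F4.of t := by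
  revert x t
  decide

theorem tr_tw (c x : F4) : F4.tr (x + F4.of (F4.tr (c * x))) = F4.tr x := by
  revert c x
  decide

/-- The matrix for the class `c`. -/
theorem tw_M (c : F4) (D : Dat ι) (S : Finset ι) (i j : S) : (tw c D).M S i j =
    if i = j then F4.cj (D.a i) + F4.of (F4.tr (c * D.a i)) +
      ∑ k ∈ S.erase (i : ι), F4.of (D.s i k) else F4.of (D.s i j) := by
  unfold Dat.M
  rw [tw_a, cj_add_of]
  simp only [tw_s]

end

end

end Pool.Agent.Lib.MP_1a91b9_ntH2
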