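import Pool.Agent.Lib.MP_1a91b9_ntH2.R.ChiC

/-!
# MP_1a91b9_nt (TwistDensity), phase 2: the squarefree elements of an odd class modulo 4
-/

set_option autoImplicit false

namespace Pool.Agent.Lib.MP_1a91b9_ntH2

open NumberField Finset Pool.Agent.Lib.MP_1a91b9_ntT Pool.Agent.Lib.MP_1a91b9_ntH

noncomputable section

/-- The factors of `dlc c S` in front of `DD S`. -/
def k1c (c : F4) (S : Finset Pq) : 𝓞 K := if (qd.A S + c).b = 0 then 1 else s3

/-- The factors of `dlc c S` in front of `DD S`. -/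
def k2c (c : F4) (S : Finset Pq) : 𝓞 K := if (qd.A S + c).a = 0 then 1 else -1

theorem dlc_eq (c : F4) (S : Finset Pq) : dlc c S = k1c c S * k2c c S * DD S := rfl

theorem k1c_sub_one (c : F4) (S : Finset Pq) : (2 : 𝓞 K) ∣ k1c c S - 1 := by
  unfold k1c; split_ifs
  · exact one_sub_one
  · exact s3_sub_one

theorem k2c_sub_one (c : F4) (S : Finset Pq) : (2 : 𝓞 K) ∣ k2c c S - 1 := by
  unfold k2c; split_ifs
  · exact one_sub_one
  · exact neg_one_sub_one

private theorem zmod_ne {x : ZMod 2} (h : x ≠ 0) : x = 1 := by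
  revert x; decide

theorem cls_k1c (c : F4) (S : Finset Pq) : red (half (k1c c S)) = ⟨0, (qd.A S + c).b⟩ := by
  unfold k1c; split_ifs with h
  · rw [cls_one, h]; rfl
  · rw [red_half_s3, zmod_ne h]

theorem cls_k2c (c : F4) (S : Finset Pq) : red (half (k2c c S)) = ⟨(qd.A S + c).a, 0⟩ := by
  unfold k2c; split_ifs with h
  · rw [cls_one, h]; rfl
  · rw [red_half_neg_one, zmod_ne h]

theorem dlc_two (c : F4) (S : Finset Pq) : (2 : 𝓞 K) ∣ dlc c S - 1 := by
  rw [dlc_eq]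
  exact two_mul_sub (two_mul_sub (k1c_sub_one c S) (k2c_sub_one c S)) (DD_inP S).two

/-- The class of `dlc c S` modulo `4` is `c`. -/
theorem cls_dlc (c : F4) (S : Finset Pq) : red (half (dlc c S)) = c := by
  rw [dlc_eq, cls_mul (two_mul_sub (k1c_sub_one c S) (k2c_sub_one c S))
    (DD_inP S).two, cls_mul (k1c_sub_one c S) (k2c_sub_one c S), cls_k1c, cls_k2c, cls_DD]
  have key : ∀ A c : F4, (⟨0, (A + c).b⟩ + ⟨(A + c).a, 0⟩ + A : F4) = c := by decide
  exact key _ _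

/-- Two elements congruent to `1` modulo `2` with the same class are congruent modulo `4`. -/
theorem four_dvd_of_cls {x y : 𝓞 K} (hx : (2 : 𝓞 K) ∣ x - 1) (hy : (2 : 𝓞 K) ∣ y - 1)
    (h : red (half x) = red (half y)) : (4 : 𝓞 K) ∣ x - y := by
  have h1 : (2 : 𝓞 K) ∣ x * y - 1 := two_mul_sub hx hy
  have h2 : red (half (x * y)) = 0 := by
    rw [cls_mul hx hy, h]
    have key : ∀ z : F4, z + z = 0 := by decide
    exact key _
  have h3 := (cls_eq_zero h1).1 h2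
  have h4 : red (half (y * y)) = 0 := by
    rw [cls_mul hy hy]
    have key : ∀ z : F4, z + z = 0 := by decide
    exact key _
  have h5 := (cls_eq_zero (two_mul_sub hy hy)).1 h4
  obtain ⟨a, ha⟩ := h3
  obtain ⟨b, hb⟩ := h5
  exact ⟨a * y - b * x, by linear_combination y * ha - x * hb⟩

theorem dlc_sub {c : F4} {v : 𝓞 K} (hv : red v = c) (S : Finset Pq) :
    (4 : 𝓞 K) ∣ dlc c S - (1 + 2 * v) := by
  apply four_dvd_of_cls (dlc_two c S) ⟨v, by ring⟩
  rw [cls_dlc, half_eq, hv]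

theorem k2c_unit (c : F4) (S : Finset Pq) : IsUnit (k2c c S) := by
  unfold k2c; split_ifs
  · exact isUnit_one
  · exact isUnit_one.neg

theorem k2c_sq (c : F4) (S : Finset Pq) : k2c c S * k2c c S = 1 := by
  unfold k2c; split_ifs <;> ring

theorem dlc_squarefree (c : F4) (S : Finset Pq) : Squarefree (dlc c S) := by
  have h : Squarefree (k1c c S * DD S) := by
    unfold k1c
    split_ifs
    · rw [one_mul]; exact DD_squarefree S
    · rw [squarefree_mul_iff]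
      exact ⟨(prime_s3.irreducible.isRelPrime_iff_not_dvd).2 (not_s3_dvd_DD S),
        prime_s3.squarefree, DD_squarefree S⟩
  have e : dlc c S = k2c c S * (k1c c S * DD S) := by rw [dlc_eq]; ring
  rw [e]
  exact squarefree_unit_mul (k2c_unit c S) h

theorem dvd_dlc {q : Pq} {c : F4} {S : Finset Pq} : q.1 ∣ dlc c S ↔ q ∈ S := by
  constructor
  · intro h
    rw [dlc_eq] at h
    rcases q.prime.dvd_or_dvd h with h1 | h1
    · exfalso
      rcases q.prime.dvd_or_dvd h1 with h2 | h2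
      · unfold k1c at h2
        split_ifs at h2
        · exact q.prime.not_unit (isUnit_of_dvd_one h2)
        · exact not_dvd_s3 q h2
      · exact q.prime.not_unit (isUnit_of_dvd_unit h2 (k2c_unit c S))
    · exact dvd_DD.1 h1
  · intro h
    rw [dlc_eq]
    exact Dvd.dvd.mul_left (dvd_DD.2 h) _

theorem dlc_inj (c : F4) : Function.Injective (dlc c) := by
  intro S T h
  ext q
  rw [← dvd_dlc (c := c), ← dvd_dlc (c := c) (S := T), h]

theorem dlc_ne_zero (c : F4) (S : Finset Pq) : dlc c S ≠ 0 := (dlc_squarefree c S).ne_zero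

/-- `s3` divides `dlc c S` if and only if `(A S + c).b ≠ 0`. -/
theorem s3_dvd_dlc {c : F4} {S : Finset Pq} : s3 ∣ dlc c S ↔ (qd.A S + c).b ≠ 0 := by
  constructor
  · intro h hb
    rw [dlc_eq, k1c, if_pos hb, one_mul] at h
    rcases prime_s3.dvd_or_dvd h with h1 | h1
    · exact prime_s3.not_unit (isUnit_of_dvd_unit h1 (k2c_unit c S))
    · exact not_s3_dvd_DD S h1
  · intro hb
    rw [dlc_eq, k1c, if_neg hb, mul_assoc]
    exact dvd_mul_right _ _

theorem not_two_dvd_of_sub_one {x : 𝓞 K} (h : (2 : 𝓞 K) ∣ x - 1) : ¬ (2 : 𝓞 K) ∣ x := by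
  intro h2
  have h3 := dvd_sub h2 h
  rw [sub_sub_cancel] at h3
  have h4 : IsUnit (2 : 𝓞 K) := isUnit_of_dvd_one h3
  have e : (2 : 𝓞 K) = ((2 : ℤ) : 𝓞 K) + ((0 : ℤ) : 𝓞 K) * wO := by simp
  rw [e, isEis.isUnit_iff] at h4
  norm_num [R.nm] at h4

/-- Every squarefree element congruent to `1` modulo `2` is `dlc c S`, `c` its class. -/
theorem exists_dlc {c : F4} {x : 𝓞 K} (hs : Squarefree x) (hx2 : (2 : 𝓞 K) ∣ x - 1)
    (hcx : red (half x) = c) : ∃ S : Finset Pq, dlc c S = x := by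
  have h2x : ¬ (2 : 𝓞 K) ∣ x := not_two_dvd_of_sub_one hx2
  -- write `x = k y` with `k = 1` or `k = s3`, `y` prime to `s3`
  obtain ⟨k, y, hk, hxy, hy3⟩ : ∃ k y : 𝓞 K, (k = 1 ∨ k = s3) ∧ x = k * y ∧ ¬ s3 ∣ y := by
    by_cases h3 : s3 ∣ x
    · obtain ⟨y, hy⟩ := h3
      refine ⟨s3, y, Or.inr rfl, hy, ?_⟩
      rintro ⟨z, hz⟩
      apply prime_s3.not_unit
      apply hs
      rw [hy, hz]
      exact ⟨z, by ring⟩
    · exact ⟨1, x, Or.inl rfl, by ring, h3⟩
  have hk2 : (2 : 𝓞 K) ∣ k - 1 := by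
    rcases hk with rfl | rfl
    · exact one_sub_one
    · exact s3_sub_one
  have hy2 : ¬ (2 : 𝓞 K) ∣ y := fun h3 => h2x (by rw [hxy]; exact Dvd.dvd.mul_left h3 _)
  have hysq : Squarefree y := hs.squarefree_of_dvd ⟨k, by rw [hxy]; ring⟩
  obtain ⟨u, hu, hP⟩ := exists_unit hy2 hy3
  obtain ⟨S, hS⟩ := exists_DD hP (squarefree_unit_mul hu hysq)
  -- the unit is `1` or `-1`
  have hy1 : (2 : 𝓞 K) ∣ y - 1 := by
    obtain ⟨a, ha⟩ := hx2
    obtain ⟨b, hb⟩ := hk2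
    exact ⟨a - b * y, by rw [hxy] at ha; linear_combination ha - y * hb⟩
  have hu1 : (2 : 𝓞 K) ∣ u - 1 := by
    obtain ⟨a, ha⟩ := hy1
    obtain ⟨b, hb⟩ := hP.two
    exact ⟨b - a * u, by linear_combination hb - u * ha⟩
  have huu := unit_two hu hu1
  have huu2 : u * u = 1 := by rcases huu with rfl | rfl <;> ring
  have hyS : y = u * DD S := by rw [hS]; linear_combination -(y * huu2)
  -- the classes
  have hx' : x = k * u * DD S := by rw [hxy, hyS]; ring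
  rw [hx', cls_mul (two_mul_sub hk2 hu1) (DD_inP S).two, cls_mul hk2 hu1, cls_DD] at hcx
  refine ⟨S, ?_⟩
  rw [dlc_eq, hx']
  obtain ⟨s, hkc, hks⟩ : ∃ s : ZMod 2, red (half k) = ⟨0, s⟩ ∧
      (if s = 0 then (1 : 𝓞 K) else s3) = k := by
    rcases hk with rfl | rfl
    · exact ⟨0, by rw [cls_one]; rfl, if_pos rfl⟩
    · exact ⟨1, red_half_s3, if_neg (by decide)⟩
  obtain ⟨t, huc, hut⟩ : ∃ t : ZMod 2, red (half u) = ⟨t, 0⟩ ∧
      (if t = 0 then (1 : 𝓞 K) else -1) = u := by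
    rcases huu with rfl | rfl
    · exact ⟨0, by rw [cls_one]; rfl, if_pos rfl⟩
    · exact ⟨1, red_half_neg_one, if_neg (by decide)⟩
  rw [hkc, huc] at hcx
  have key : ∀ (A c : F4) (s t : ZMod 2), (⟨0, s⟩ + ⟨t, 0⟩ + A : F4) = c →
      (A + c).b = s ∧ (A + c).a = t := by
    decide
  obtain ⟨hb, ha⟩ := key _ _ _ _ hcx
  unfold k1c k2c
  rw [hb, ha, hks, hut]

theorem Nz_dlc (c : F4) (S : Finset Pq) :
    Nz (dlc c S) = (if (qd.A S + c).b = 0 then 1 else 3) * nm S := by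
  rw [dlc_eq, Nz_mul, Nz_mul, Nz_DD]
  have h1 : Nz (k2c c S) = 1 := isUnit_iff_Nz.1 (k2c_unit c S)
  have h2 : Nz (k1c c S) = if (qd.A S + c).b = 0 then 1 else 3 := by
    unfold k1c
    split_ifs
    · exact Nz_one
    · exact Nz_s3
  rw [h1, h2, mul_one]

/-! ### The classes modulo 4 -/

theorem wO_cube : wO ^ 3 = 1 := by linear_combination (wO - 1) * wO_quad

theorem isUnit_wO : IsUnit wO := by
  apply IsUnit.of_mul_eq_one (wO ^ 2)
  linear_combination wO_cube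

theorem wO_pow_cube (j : ℕ) : (wO ^ j) ^ 3 = 1 := by
  rw [← pow_mul, mul_comm, pow_mul, wO_cube, one_pow]

theorem two_dvd_iff (x : 𝓞 K) : (2 : 𝓞 K) ∣ x ↔ red x = 0 := by
  constructor
  · rintro ⟨y, rfl⟩
    rw [map_mul]
    have h : red (2 : 𝓞 K) = 0 := by
      rw [map_ofNat]
      rfl
    rw [h, zero_mul]
  · intro h
    have h1 : (((cp x).1 : ℤ) : ZMod 2) = 0 := congrArg F4.a h
    have h2 : (((cp x).2 : ℤ) : ZMod 2) = 0 := congrArg F4.b h
    rw [ZMod.intCast_zmod_eq_zero_iff_dvd] at h1 h2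
    obtain ⟨a, ha⟩ := h1
    obtain ⟨b, hb⟩ := h2
    refine ⟨a + b * wO, ?_⟩
    conv_lhs => rw [eq_cp x, ha, hb]
    push_cast
    ring

/-- Every odd element is, after multiplication by a power of `w`, congruent to `1` modulo `2`. -/
theorem exists_pow_w {u : 𝓞 K} (hu : ¬ (2 : 𝓞 K) ∣ u) :
    ∃ j : ℕ, (2 : 𝓞 K) ∣ wO ^ (2 * j) * u - 1 := by
  rw [two_dvd_iff] at hu
  have key : ∀ x : F4, x ≠ 0 → x = 1 ∨ F4.w ^ 2 * x = 1 ∨ F4.w ^ 4 * x = 1 := by decide
  rcases key _ hu with h | h | h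
  · refine ⟨0, ?_⟩
    rw [two_dvd_iff, map_sub, map_mul, map_pow, map_one, h, mul_zero, pow_zero, one_mul, sub_self]
  · refine ⟨1, ?_⟩
    rw [two_dvd_iff, map_sub, map_mul, map_pow, red_w, map_one, mul_one, h, sub_self]
  · refine ⟨2, ?_⟩
    rw [two_dvd_iff, map_sub, map_mul, map_pow, red_w, map_one, h, sub_self]

theorem exists_cls {u : 𝓞 K} (hu : ¬ (2 : 𝓞 K) ∣ u) :
    ∃ (j : ℕ) (c : F4), (2 : 𝓞 K) ∣ wO ^ j * u - 1 ∧ red (half (wO ^ j * u)) = c := by
  obtain ⟨j, hj⟩ := exists_pow_w hu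
  exact ⟨2 * j, _, hj, rfl⟩

/-- **The squarefree elements of an odd class modulo 4** are the `w^j * dlc c S`. -/
theorem exists_class {u : 𝓞 K} (hu : ¬ (2 : 𝓞 K) ∣ u) : ∃ (j : ℕ) (c : F4),
    (∀ S : Finset Pq, (4 : 𝓞 K) ∣ wO ^ j * dlc c S - u) ∧
    (∀ x : 𝓞 K, Squarefree x → (4 : 𝓞 K) ∣ x - u → ∃ S : Finset Pq, wO ^ j * dlc c S = x) := by
  obtain ⟨j, hj⟩ := exists_pow_w hu
  have e : wO ^ j * wO ^ (2 * j) = 1 := by
    rw [← pow_add, show j + 2 * j = 3 * j by ring, pow_mul, wO_cube, one_pow]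
  refine ⟨j, red (half (wO ^ (2 * j) * u)), ?_, ?_⟩
  · intro S
    have h1 := four_dvd_of_cls (dlc_two (red (half (wO ^ (2 * j) * u))) S) hj (cls_dlc _ S)
    have h2 := Dvd.dvd.mul_left h1 (wO ^ j)
    have e2 : wO ^ j * (dlc (red (half (wO ^ (2 * j) * u))) S - wO ^ (2 * j) * u) =
        wO ^ j * dlc (red (half (wO ^ (2 * j) * u))) S - u := by
      linear_combination -u * e
    rwa [e2] at h2
  · intro x hx hxu
    have h1 : (4 : 𝓞 K) ∣ wO ^ (2 * j) * x - wO ^ (2 * j) * u := by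
      rw [← mul_sub]
      exact Dvd.dvd.mul_left hxu _
    have h2 : (2 : 𝓞 K) ∣ wO ^ (2 * j) * x - 1 := by
      obtain ⟨a, ha⟩ := h1
      obtain ⟨b, hb⟩ := hj
      exact ⟨2 * a + b, by linear_combination ha + hb⟩
    obtain ⟨S, hS⟩ := exists_dlc (squarefree_unit_mul (isUnit_wO.pow _) hx) h2
      (cls_congr h2 h1)
    refine ⟨S, ?_⟩
    rw [hS]
    linear_combination x * e

theorem Nz_pow_w_mul (j : ℕ) (x : 𝓞 K) : Nz (wO ^ j * x) = Nz x := by
  rw [Nz_mul, isUnit_iff_Nz.1 (isUnit_wO.pow j), one_mul]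

theorem pow_w_mul_cube (j : ℕ) (x : 𝓞 K) : (wO ^ j * x) ^ 3 = x ^ 3 := by
  rw [mul_pow, wO_pow_cube, one_mul]

theorem pow_w_mul_squarefree (j : ℕ) (c : F4) (S : Finset Pq) :
    Squarefree (wO ^ j * dlc c S) :=
  squarefree_unit_mul (isUnit_wO.pow j) (dlc_squarefree c S)

theorem pow_w_mul_inj (j : ℕ) (c : F4) : Function.Injective fun S : Finset Pq => wO ^ j * dlc c S := by
  intro S T h
  have h1 : wO ^ j * dlc c S = wO ^ j * dlc c T := h
  exact dlc_inj c ((isUnit_wO.pow j).mul_left_cancel h1)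

end

end Pool.Agent.Lib.MP_1a91b9_ntH2
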