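import Pool.Agent.Lib.MP_1a91b9_ntH.R.Density
import Pool.Agent.Lib.MP_1a91b9_ntH2.R.BijC

/-!
# MP_1a91b9_nt (TwistDensity), phase 2: transfer of the density for every odd class modulo 4

The squarefree `δ ≡ u` modulo `4` with norm at most `X` are the `w^j dlc c S` (`j`, `c` fixed by `u`)
with `nm S ≤ X` and `(A_S + c).b = 0`, or with `nm S ≤ X / 3` and `(A_S + c).b ≠ 0`.
-/

set_option autoImplicit false

namespace Pool.Agent.Lib.MP_1a91b9_ntH2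

open NumberField Finset Pool.Agent.Lib.MP_1a91b9_ntT Pool.Agent.Lib.MP_1a91b9_ntH

noncomputable section

namespace DensC

/-- The squarefree elements congruent to `1` modulo `2` with class `c`. -/
def Cl (c : F4) (x : 𝓞 K) : Prop := Squarefree x ∧ (2 : 𝓞 K) ∣ x - 1 ∧ red (half x) = c

/-- The bound for the norms of the `S` in the class `d`. -/
def m (c d : F4) (n : ℕ) : ℕ := if (d + c).b = 0 then n else n / 3

theorem mem (c : F4) (S : Finset Pq) (n : ℕ) :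
    Nz (dlc c S) ≤ n ↔ nm S ≤ m c (qd.A S) n := by
  rw [Nz_dlc, m]
  split_ifs with h
  · rw [one_mul]
  · rw [Nat.le_div_iff_mul_le (by norm_num), mul_comm]

theorem m_le (c d : F4) (n : ℕ) : m c d n ≤ n := by
  rw [m]
  split_ifs with h
  · exact le_rfl
  · exact Nat.div_le_self n 3

theorem le_m (c d : F4) (n : ℕ) : n / 3 ≤ m c d n := by
  rw [m]
  split_ifs with h
  · exact Nat.div_le_self n 3
  · exact le_rfl

open Classical in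
theorem card (c : F4) (X : ℝ) (hX : 0 ≤ X) (P : 𝓞 K → Prop) :
    Nat.card {δ : 𝓞 K // Cl c δ ∧ (Nz δ : ℝ) ≤ X ∧ P δ} =
      ∑ d : F4, ((Sx Pq (m c d ⌊X⌋₊)).filter fun S => qd.A S = d ∧ P (dlc c S)).card := by
  set n := ⌊X⌋₊ with hn
  have e : Nat.card {δ : 𝓞 K // Cl c δ ∧ (Nz δ : ℝ) ≤ X ∧ P δ} =
      Nat.card {S : Finset Pq // S ∈ (Sx Pq n).filter fun S => Nz (dlc c S) ≤ n ∧ P (dlc c S)} := by
    symm
    refine Nat.card_congr (Equiv.ofBijective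
      (fun S => ⟨dlc c S.1, ⟨dlc_squarefree _ _, dlc_two _ _, cls_dlc _ _⟩, ?_,
        ((mem_filter.1 S.2).2).2⟩) ⟨?_, ?_⟩)
    · exact (Nat.le_floor_iff hX).1 ((mem_filter.1 S.2).2).1
    · intro S T h
      exact Subtype.ext (dlc_inj c (congrArg Subtype.val h))
    · rintro ⟨δ, ⟨h1, h2, h2'⟩, h3, h4⟩
      obtain ⟨S, rfl⟩ := exists_dlc h1 h2 h2'
      have h5 : Nz (dlc c S) ≤ n := (Nat.le_floor_iff hX).2 h3
      refine ⟨⟨S, mem_filter.2 ⟨mem_Sx.2 ?_, h5, h4⟩⟩, rfl⟩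
      exact ((mem c S n).1 h5).trans (m_le _ _ _)
  rw [e, Nat.card_eq_fintype_card, Fintype.card_coe,
    card_eq_sum_card_fiberwise (f := fun S => qd.A S) (t := univ) (fun _ _ => mem_coe.2 (mem_univ _))]
  refine sum_congr rfl fun d _ => congrArg Finset.card ?_
  ext S
  simp only [mem_filter, mem_Sx, mem]
  constructor
  · rintro ⟨⟨_, h2, h3⟩, rfl⟩
    exact ⟨h2, rfl, h3⟩
  · rintro ⟨h1, rfl, h3⟩
    exact ⟨⟨h1.trans (m_le _ _ _), h1, h3⟩, rfl⟩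

open Classical in
theorem card' (c : F4) (X : ℝ) (hX : 0 ≤ X) :
    Nat.card {δ : 𝓞 K // Cl c δ ∧ (Nz δ : ℝ) ≤ X} =
      ∑ d : F4, ((Sx Pq (m c d ⌊X⌋₊)).filter fun S => qd.A S = d).card := by
  have h := card c X hX (fun _ => True)
  simp only [and_true] at h
  exact h

/-- There are at least `c₀ X` elements of the class with norm at most `X`. -/
theorem card_ge (c : F4) : ∃ c₀ : ℝ, 0 < c₀ ∧ ∀ᶠ X : ℝ in Filter.atTop,
    c₀ * X ≤ Nat.card {δ : 𝓞 K // Cl c δ ∧ (Nz δ : ℝ) ≤ X} := by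
  classical
  obtain ⟨b, hb, X₀, h⟩ := card_Sx_ge
  refine ⟨b / 6, by positivity, ?_⟩
  filter_upwards [Filter.eventually_ge_atTop ((3 * X₀ + 12 : ℕ) : ℝ)] with X hX
  have hX0 : 0 ≤ X := (Nat.cast_nonneg _).trans hX
  have hn : 3 * X₀ + 12 ≤ ⌊X⌋₊ := Nat.le_floor hX
  have h1 : X₀ ≤ ⌊X⌋₊ / 3 := by omega
  have h2 := h _ h1
  have h3 : (Sx Pq (⌊X⌋₊ / 3)).card ≤
      ∑ d : F4, ((Sx Pq (m c d ⌊X⌋₊)).filter fun S => qd.A S = d).card := by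
    rw [card_eq_sum_card_fiberwise (f := fun S => qd.A S) (t := univ)
      (fun _ _ => mem_coe.2 (mem_univ _))]
    refine sum_le_sum fun d _ => card_le_card ?_
    intro S hS
    rw [mem_filter, mem_Sx] at hS ⊢
    exact ⟨hS.1.trans (le_m _ _ _), hS.2⟩
  rw [card' c X hX0]
  have h4 : X ≤ 6 * ((⌊X⌋₊ / 3 : ℕ) : ℝ) := by
    have h5 : X < ⌊X⌋₊ + 1 := Nat.lt_floor_add_one X
    have h6 : ⌊X⌋₊ + 1 ≤ 6 * (⌊X⌋₊ / 3) := by omega
    have h7 : ((⌊X⌋₊ : ℝ) + 1) ≤ 6 * ((⌊X⌋₊ / 3 : ℕ) : ℝ) := by exact_mod_cast h6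
    linarith
  calc b / 6 * X ≤ b / 6 * (6 * ((⌊X⌋₊ / 3 : ℕ) : ℝ)) :=
        mul_le_mul_of_nonneg_left h4 (by positivity)
    _ = b * ((⌊X⌋₊ / 3 : ℕ) : ℝ) := by ring
    _ ≤ ((Sx Pq (⌊X⌋₊ / 3)).card : ℝ) := h2
    _ ≤ _ := by exact_mod_cast h3

/-- The density for the class `c`. -/
theorem main (c : F4) (κ κ' : ℝ) (hκ : κ' < κ)
    (h : ∀ d : F4, ∀ ε : ℝ, 0 < ε → ∃ X₀ : ℕ, ∀ X : ℕ, X₀ ≤ X →
      κ * (((Sx Pq X).filter fun S => qd.A S = d).card : ℝ) - ε * X ≤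
        (((Sx Pq X).filter fun S => qd.A S = d ∧ ((tw c qd).M S).det ≠ 0).card : ℝ))
    (Pr : 𝓞 K → Prop) (hPr : ∀ S : Finset Pq, ((tw c qd).M S).det ≠ 0 → Pr (dlc c S)) :
    ∀ᶠ X : ℝ in Filter.atTop,
      0 < Nat.card {δ : 𝓞 K // Cl c δ ∧ (Nz δ : ℝ) ≤ X} ∧
      κ' * (Nat.card {δ : 𝓞 K // Cl c δ ∧ (Nz δ : ℝ) ≤ X} : ℝ) ≤
        (Nat.card {δ : 𝓞 K // Cl c δ ∧ (Nz δ : ℝ) ≤ X ∧ Pr δ} : ℝ) := by
  classical
  obtain ⟨c₀, hc₀, h0⟩ := card_ge c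
  have hε : 0 < (κ - κ') * c₀ / 4 := by
    have : 0 < κ - κ' := by linarith
    positivity
  choose X₀ hX₀ using fun d : F4 => h d _ hε
  filter_upwards [h0, Filter.eventually_ge_atTop ((3 * (∑ d, X₀ d) + 3 : ℕ) : ℝ)] with X h1 hX
  have hX0 : 0 ≤ X := (Nat.cast_nonneg _).trans hX
  have hn : 3 * (∑ d, X₀ d) + 3 ≤ ⌊X⌋₊ := Nat.le_floor hX
  refine ⟨?_, ?_⟩
  · have hX1 : (0 : ℝ) < X := by
      have h2 : ((3 : ℕ) : ℝ) ≤ X := le_trans (by exact_mod_cast (by omega)) hX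
      norm_num at h2
      linarith
    have h2 : (0 : ℝ) < Nat.card {δ : 𝓞 K // Cl c δ ∧ (Nz δ : ℝ) ≤ X} :=
      lt_of_lt_of_le (by positivity) h1
    exact_mod_cast h2
  have h2 : ∀ d : F4, κ * (((Sx Pq (m c d ⌊X⌋₊)).filter fun S => qd.A S = d).card : ℝ) -
      (κ - κ') * c₀ / 4 * X ≤
      (((Sx Pq (m c d ⌊X⌋₊)).filter fun S => qd.A S = d ∧ Pr (dlc c S)).card : ℝ) := by
    intro d
    have h3 : X₀ d ≤ ∑ d, X₀ d := single_le_sum (fun _ _ => Nat.zero_le _) (mem_univ d)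
    have h4 : X₀ d ≤ m c d ⌊X⌋₊ := by
      have := le_m c d ⌊X⌋₊
      omega
    have h5 := hX₀ d _ h4
    have h6 : ((m c d ⌊X⌋₊ : ℕ) : ℝ) ≤ X :=
      (Nat.le_floor_iff hX0).1 (m_le _ _ _)
    have h7 : (κ - κ') * c₀ / 4 * ((m c d ⌊X⌋₊ : ℕ) : ℝ) ≤ (κ - κ') * c₀ / 4 * X :=
      mul_le_mul_of_nonneg_left h6 hε.le
    have h8 : (((Sx Pq (m c d ⌊X⌋₊)).filter
          fun S => qd.A S = d ∧ ((tw c qd).M S).det ≠ 0).card : ℝ) ≤
        (((Sx Pq (m c d ⌊X⌋₊)).filter fun S => qd.A S = d ∧ Pr (dlc c S)).card : ℝ) := by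
      refine Nat.cast_le.2 (card_le_card ?_)
      intro S hS
      rw [mem_filter] at hS ⊢
      exact ⟨hS.1, hS.2.1, hPr S hS.2.2⟩
    linarith
  have h9 := sum_le_sum fun (d : F4) (_ : d ∈ (univ : Finset F4)) => h2 d
  rw [sum_sub_distrib, ← mul_sum, sum_const, card_univ, F4.card_F4, nsmul_eq_mul] at h9
  rw [card c X hX0 Pr]
  have h10 : (∑ d : F4, (((Sx Pq (m c d ⌊X⌋₊)).filter fun S => qd.A S = d).card : ℝ)) =
      (Nat.card {δ : 𝓞 K // Cl c δ ∧ (Nz δ : ℝ) ≤ X} : ℝ) := by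
    rw [card' c X hX0]
    push_cast
    rfl
  rw [h10] at h9
  push_cast
  have h11 : (κ - κ') * (c₀ * X) ≤ (κ - κ') *
      (Nat.card {δ : 𝓞 K // Cl c δ ∧ (Nz δ : ℝ) ≤ X} : ℝ) :=
    mul_le_mul_of_nonneg_left h1 (by linarith)
  push_cast at h9
  linarith

theorem wO_cube : wO ^ 3 = 1 := by linear_combination (wO - 1) * wO_quad

theorem wO_unit : IsUnit wO := IsUnit.of_mul_eq_one (wO ^ 2) (by rw [← wO_cube]; ring)

theorem wpow (j : ℕ) : wO ^ (2 * j) * wO ^ j = 1 := by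
  rw [← pow_add, show 2 * j + j = 3 * j by ring, pow_mul, wO_cube, one_pow]

theorem Nz_unit_mul {u x : 𝓞 K} (hu : IsUnit u) : Nz (u * x) = Nz x := by
  rw [Nz_mul, isUnit_iff_Nz.1 hu, one_mul]

theorem dvd_unit_mul {u y z : 𝓞 K} (hu : IsUnit u) : z ∣ u * y ↔ z ∣ y := by
  constructor
  · intro h
    obtain ⟨v, hv⟩ := hu.exists_left_inv
    obtain ⟨t, ht⟩ := h
    exact ⟨v * t, by linear_combination v * ht - y * hv⟩
  · intro h
    exact Dvd.dvd.mul_left h _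

/-- The elements of the class of `u` and the elements of the class `c`. -/
theorem cl_iff {u δ : 𝓞 K} {j : ℕ} {c : F4} (h2 : (2 : 𝓞 K) ∣ wO ^ j * u - 1)
    (hc : red (half (wO ^ j * u)) = c) :
    Cl c (wO ^ j * δ) ↔ Squarefree δ ∧ (4 : 𝓞 K) ∣ δ - u := by
  have hw : IsUnit (wO ^ j) := wO_unit.pow j
  have e : wO ^ j * (δ - u) = wO ^ j * δ - wO ^ j * u := by ring
  have h4 : (4 : 𝓞 K) ∣ δ - u ↔ (4 : 𝓞 K) ∣ wO ^ j * δ - wO ^ j * u := by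
    rw [← e, dvd_unit_mul hw]
  rw [h4, Cl]
  constructor
  · rintro ⟨h5, h6, h7⟩
    refine ⟨?_, ?_⟩
    · exact h5.squarefree_of_dvd (Dvd.intro_left _ rfl)
    · have e1 := half_spec h6
      have e2 := half_spec h2
      have h8 : (2 : 𝓞 K) ∣ half (wO ^ j * δ) - half (wO ^ j * u) := by
        rw [← red_eq_zero_iff, map_sub, h7, hc, sub_self]
      obtain ⟨t, ht⟩ := h8
      exact ⟨t, by linear_combination e1 - e2 + 2 * ht⟩
  · rintro ⟨h5, h6⟩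
    have h7 : (2 : 𝓞 K) ∣ wO ^ j * δ - 1 := by
      have := dvd_add (dvd_trans ⟨2, by norm_num⟩ h6) h2
      rwa [sub_add_sub_cancel] at this
    exact ⟨squarefree_unit_mul hw h5, h7, by rw [cls_congr h7 h6, hc]⟩

/-- Transfer of the numbers. -/
theorem card_cls {u : 𝓞 K} {j : ℕ} {c : F4} (h2 : (2 : 𝓞 K) ∣ wO ^ j * u - 1)
    (hc : red (half (wO ^ j * u)) = c) (Q : 𝓞 K → Prop) :
    Nat.card {δ : 𝓞 K // Squarefree δ ∧ (4 : 𝓞 K) ∣ δ - u ∧ Q δ} =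
      Nat.card {x : 𝓞 K // Cl c x ∧ Q (wO ^ (2 * j) * x)} := by
  refine Nat.card_congr (Equiv.subtypeEquiv
    { toFun := fun δ => wO ^ j * δ
      invFun := fun x => wO ^ (2 * j) * x
      left_inv := fun δ => by
        change wO ^ (2 * j) * (wO ^ j * δ) = δ
        rw [← mul_assoc, wpow, one_mul]
      right_inv := fun x => by
        change wO ^ j * (wO ^ (2 * j) * x) = x
        rw [← mul_assoc, mul_comm (wO ^ j), wpow, one_mul] } ?_)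
  intro δ
  change _ ↔ Cl c (wO ^ j * δ) ∧ Q (wO ^ (2 * j) * (wO ^ j * δ))
  rw [cl_iff h2 hc, ← mul_assoc, wpow, one_mul, and_assoc]

end DensC

/-- The density in the form of the final statements, for every odd class `u` modulo `4`. -/
theorem density_ratioC {u : 𝓞 K} (hu : ¬ (2 : 𝓞 K) ∣ u) (κ κ' : ℝ) (hκ : κ' < κ)
    (h : ∀ c d : F4, ∀ ε : ℝ, 0 < ε → ∃ X₀ : ℕ, ∀ X : ℕ, X₀ ≤ X →
      κ * (((Sx Pq X).filter fun S => qd.A S = d).card : ℝ) - ε * X ≤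
        (((Sx Pq X).filter fun S => qd.A S = d ∧ ((tw c qd).M S).det ≠ 0).card : ℝ))
    (Pr : 𝓞 K → Prop)
    (hPr : ∀ (j : ℕ) (c : F4) (S : Finset Pq), ((tw c qd).M S).det ≠ 0 → Pr (wO ^ j * dlc c S)) :
    ∀ᶠ X : ℝ in Filter.atTop,
      κ' ≤ (Nat.card {δ : 𝓞 K // Squarefree δ ∧ 4 ∣ δ - u ∧ |Algebra.norm ℤ δ| ≤ X ∧ Pr δ} : ℝ) /
        (Nat.card {δ : 𝓞 K // Squarefree δ ∧ 4 ∣ δ - u ∧ |Algebra.norm ℤ δ| ≤ X} : ℝ) := by
  obtain ⟨j, c, h2, hc⟩ := exists_cls hu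
  filter_upwards [DensC.main c κ κ' hκ (h c) (fun x => Pr (wO ^ (2 * j) * x))
    (fun S hS => hPr _ _ _ hS)] with X hX
  have hw : IsUnit (wO ^ (2 * j)) := DensC.wO_unit.pow _
  simp only [abs_norm_le]
  rw [DensC.card_cls h2 hc (fun δ => (Nz δ : ℝ) ≤ X ∧ Pr δ),
    DensC.card_cls h2 hc (fun δ => (Nz δ : ℝ) ≤ X)]
  simp only [DensC.Nz_unit_mul hw]
  rw [le_div_iff₀ (by exact_mod_cast hX.1)]
  exact hX.2

end

end Pool.Agent.Lib.MP_1a91b9_ntH2
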