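import Pool.Agent.Lib.MP_1a91b9_ntH2.R.DefsC
import Pool.Agent.Lib.MP_1a91b9_ntH.R.Bij

/-!
# MP_1a91b9_nt (TwistDensity), phase 2: the quadratic character of `dlc c S`
-/

set_option autoImplicit false

namespace Pool.Agent.Lib.MP_1a91b9_ntH2

open NumberField Finset Pool.Agent.Lib.MP_1a91b9_ntT Pool.Agent.Lib.MP_1a91b9_ntH

noncomputable section

theorem sgz_ne_zero (x : ZMod 2) : sgz x ≠ 0 := by
  revert x
  decide

theorem sgz_mul_self (x : ZMod 2) : sgz x * sgz x = 1 := by
  revert x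
  decide

theorem chic_empty (c : F4) (x : 𝓞 K) : chic c ∅ x = sgz (F4.tr (c * red (half x))) := by
  rw [chic, chi_empty, one_mul]

theorem chic_one (c : F4) (S : Finset Pq) : chic c S 1 = 1 := by
  rw [chic, chi_one, cls_one, mul_zero]
  rfl

/-- `chic c S` is multiplicative on the elements congruent to `1` modulo `2`. -/
theorem chic_mul (c : F4) (S : Finset Pq) {x y : 𝓞 K} (hx : (2 : 𝓞 K) ∣ x - 1)
    (hy : (2 : 𝓞 K) ∣ y - 1) : chic c S (x * y) = chic c S x * chic c S y := by
  unfold chic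
  rw [chi_mul, cls_mul hx hy, mul_add, F4.tr_add, sgz_add]
  ring

theorem chic_union (c : F4) {S T : Finset Pq} (h : Disjoint S T) (x : 𝓞 K) :
    chic c (S ∪ T) x = chic c S x * chi T x := by
  unfold chic
  rw [chi_union h]
  ring

theorem chic_insert (c : F4) {S : Finset Pq} {q : Pq} (h : q ∉ S) (x : 𝓞 K) :
    chic c (insert q S) x = qs q x * chic c S x := by
  unfold chic chi
  rw [prod_insert h, mul_assoc]

/-- `chic c S` is periodic modulo `4 * DD S`. -/
theorem chic_congr {c : F4} {S : Finset Pq} {x y : 𝓞 K} (hx : (2 : 𝓞 K) ∣ x - 1)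
    (h4 : (4 : 𝓞 K) ∣ x - y) (hD : DD S ∣ x - y) : chic c S x = chic c S y := by
  unfold chic
  rw [chi_congr hD, cls_congr hx h4]

theorem chic_eq_zero_iff {c : F4} {S : Finset Pq} {x : 𝓞 K} :
    chic c S x = 0 ↔ ∃ p ∈ S, p.1 ∣ x := by
  unfold chic
  rw [mul_eq_zero, or_iff_left (sgz_ne_zero _), chi_eq_zero_iff]

theorem chic_or (c : F4) (S : Finset Pq) (x : 𝓞 K) :
    chic c S x = 0 ∨ chic c S x = 1 ∨ chic c S x = -1 := by
  unfold chic
  rcases chi_sq_or S x with h | h | h <;> rcases sgz_cases (F4.tr (c * red (half x))) with h' | h' <;>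
    rw [h, h'] <;> norm_num

/-- The value at a primary prime. -/
theorem chic_prime {c : F4} {S : Finset Pq} {q : Pq} (h : q ∉ S) :
    chic c S q.1 = sgz (F4.tr (c * qd.a q) + ∑ p ∈ S, qd.s q p) := by
  unfold chic
  rw [chi_prime h, sgz_add, mul_comm]
  rfl

/-- The value at a primary prime of `S`. -/
theorem chic_mem {c : F4} {S : Finset Pq} {q : Pq} (h : q ∈ S) : chic c S q.1 = 0 :=
  chic_eq_zero_iff.2 ⟨q, h, dvd_refl _⟩

theorem chic_neg_one (c : F4) (S : Finset Pq) :
    chic c S (-1) = if (qd.A S + c).b = 0 then 1 else -1 := by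
  unfold chic
  rw [chi_neg_one, red_half_neg_one, ← sgz_add]
  have key : ∀ x y : F4, F4.tr x + F4.tr (y * ⟨1, 0⟩) = (x + y).b := by decide
  rw [key]
  rfl

theorem chic_s3 (c : F4) (S : Finset Pq) :
    chic c S s3 = sgz (F4.tr (F4.w * (qd.A S + c))) := by
  unfold chic
  rw [chi_s3, red_half_s3, ← sgz_add]
  have key : ∀ x y : F4, F4.tr (F4.w * x) + F4.tr (y * ⟨0, 1⟩) = F4.tr (F4.w * (x + y)) := by
    decide
  rw [key]

theorem chic_neg (c : F4) (S : Finset Pq) {x : 𝓞 K} (hx : (2 : 𝓞 K) ∣ x - 1) :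
    chic c S (-x) = (if (qd.A S + c).b = 0 then 1 else -1) * chic c S x := by
  rw [← chic_neg_one, ← chic_mul c S neg_one_sub_one hx, neg_one_mul]

/-- The symbol of the twisting element: `(dlc c S / α) = chic c S α`. -/
theorem qs_dlc (c : F4) (S : Finset Pq) (p : Pq) : qs p (dlc c S) = chic c S p.1 := by
  by_cases hp : p ∈ S
  · have h2 : p.1 ∣ dlc c S := by
      unfold dlc
      exact Dvd.dvd.mul_left (dvd_prod_of_mem (fun q : Pq => q.1) hp) _
    rw [chic_mem hp, qs_of_dvd h2]
  · have h1 : qs p (DD S) = sgz (∑ q ∈ S, qd.s q p) := by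
      unfold DD
      rw [qs_prod, sgz_sum]
      exact prod_congr rfl fun q hq => qs_prime p q (fun e => hp (e ▸ hq))
    have h2 : ∑ q ∈ S, qd.s q p = ∑ q ∈ S, qd.s p q + F4.tr (qd.A S * qd.a p) := by
      rw [qd_A, sum_mul, F4.tr_sum, ← sum_add_distrib]
      apply sum_congr rfl
      intro q hq
      have h3 := qd_rec q p (fun e => hp (e ▸ hq))
      rw [← h3]
      have : qd.s p q + qd.s p q = 0 := CharTwo.add_self_eq_zero _
      linear_combination -this
    have h4 : qs p (if (qd.A S + c).b = 0 then 1 else s3) =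
        sgz ((qd.A S + c).b * F4.tr (F4.w * qd.a p)) := by
      split_ifs with hb
      · rw [hb, zero_mul, qs_one]; rfl
      · have hb1 : (qd.A S + c).b = 1 := by
          have : ∀ x : ZMod 2, x ≠ 0 → x = 1 := by decide
          exact this _ hb
        rw [hb1, one_mul, qs_s3]
    have h5 : qs p (if (qd.A S + c).a = 0 then 1 else -1) =
        sgz ((qd.A S + c).a * F4.tr (qd.a p)) := by
      split_ifs with hb
      · rw [hb, zero_mul, qs_one]; rfl
      · have hb1 : (qd.A S + c).a = 1 := by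
          have : ∀ x : ZMod 2, x ≠ 0 → x = 1 := by decide
          exact this _ hb
        rw [hb1, one_mul, qs_neg_one]
    unfold dlc
    rw [qs_mul, qs_mul, h4, h5, h1, h2, chic_prime hp, ← sgz_add, ← sgz_add]
    congr 1
    have key : ∀ x y z : F4, (x + z).b * F4.tr (F4.w * y) + (x + z).a * F4.tr y =
        F4.tr (x * y) + F4.tr (z * y) := by decide
    have h6 := key (qd.A S) (qd.a p) c
    have h7 : F4.tr (qd.A S * qd.a p) + F4.tr (qd.A S * qd.a p) = 0 := CharTwo.add_self_eq_zero _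
    linear_combination h6 + h7

end

end Pool.Agent.Lib.MP_1a91b9_ntH2
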